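import Pool.Agent.N410.FV.Ind
import Pool.Agent.R129.Ball.Main

/-!
# Balls and vertices of degree three in a minimal quotient
-/

set_option autoImplicit false
set_option linter.unusedSectionVars false

namespace Pool.Agent.N410.FV

open Finset Pool.Agent.TH676.Z Pool.Agent.Y335.FL Pool.Agent.Y358.IN Pool.Agent.R129.Ball

section

variable {V E : Type} [Fintype V] [DecidableEq V] [Fintype E] [DecidableEq E]

theorem near_map {W : Type} [Fintype W] [DecidableEq W] {s d : E → V} (P : V → W) {m : ℕ} {a b : V}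
    (h : Near s d m a b) : Near (P ∘ s) (P ∘ d) m (P a) (P b) := by
  induction h with
  | refl m x => exact Near.refl _ _
  | @step m x y z _ h2 ih =>
    by_cases h3 : P y = P z
    · rw [← h3]
      exact ih.succ
    · obtain ⟨_, e, he⟩ := h2
      refine Near.step ih ⟨h3, e, ?_⟩
      rcases he with ⟨a, b⟩ | ⟨a, b⟩
      · exact Or.inl ⟨by simp [a], by simp [b]⟩
      · exact Or.inr ⟨by simp [a], by simp [b]⟩

open Classical in
/-- **Few small balls do not contain all vertices of degree three** -/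
theorem ballsH (hc : St_contract) (ha : St_ahl) {s d : E → V} (hM : MinC s d)
    (hex : ∃ x y, Adj s d x y) {ι : Type} [Fintype ι] (r : ι → ℕ) (w : ι → ℝ)
    (hw : ∀ i, 0 ≤ w i) (h62 : 3 * ∑ i, w i * (2 ^ r i - 1) ≤ 62)
    (h126 : ∑ i, w i + 5 * ∑ i, w i * (2 ^ r i - 1) < 126) (c : ι → V) :
    ∃ x ∈ Cv s d, ∑ i, (if Near s d (r i) (c i) x then w i else 0) < 1 := by
  by_contra hcon
  push Not at hcon
  have h3 := threeC hc hM
  have hgi := girthC hc hM
  obtain ⟨y0, -, -, -, -, hdata⟩ := data hc ha hM hex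
  have hc126 : 126 ≤ (Cv s d).card := cubic126 hc ha hM hex
  obtain ⟨x0, y0, hxy0⟩ := hex
  let G : SimpleGraph V :=
    { Adj := Adj s d
      symm := ⟨fun a b h => GiAux.adj_symm h⟩
      loopless := ⟨fun a h => h.1 rfl⟩ }
  have hG : ∀ a b, G.Adj a b ↔ Adj s d a b := fun a b => Iff.rfl
  have h12 : ∀ (w : V) (c : G.Walk w w), c.IsCycle → 12 ≤ c.length :=
    fun w c hc => Ord.cycle_len hgi G hG c hc
  have hNi : Ni G = Bv s d := by
    ext v
    unfold Ni
    rw [mem_filter, mem_Bv]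
    simp [hG]
  have hn126 : 126 ≤ (Ni G).card := by
    rw [hNi]
    exact hc126.trans (card_le_card Cv_sub)
  have hnR : (126 : ℝ) ≤ (Ni G).card := by exact_mod_cast hn126
  -- the balls
  set B : ι → Finset V := fun i => (Ni G).filter (fun x => Near s d (r i) (c i) x) with hB
  have hball : ∀ i, 31 * ((B i).card : ℝ) ≤ 31 + (2 ^ r i - 1) * ((Ni G).card - 33) := by
    intro i
    have hp1 : (1 : ℝ) ≤ 2 ^ r i := one_le_pow₀ (by norm_num)
    by_cases hi : ∃ y, G.Adj (c i) y
    · obtain ⟨y, hy⟩ := hi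
      by_cases hr : r i ≤ 5
      · have h1 := ball h12 h3 hy hr
        have h2 : (B i).card ≤ ((range (r i + 1)).biUnion fun j => Lv G j (c i)).card := by
          refine card_le_card ?_
          intro x hx
          rw [hB] at hx
          obtain ⟨_, hx⟩ := mem_filter.1 hx
          obtain ⟨p, hp⟩ := near_walk G hG hx
          have hp' : p.bypass.length ≤ r i := p.length_bypass_le_length.trans hp
          exact mem_biUnion.2 ⟨p.bypass.length, mem_range.2 (by omega),
            mem_Lv.2 ⟨p.bypass, p.bypass_isPath, rfl⟩⟩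
        have h3 : 31 * (B i).card + (2 ^ r i - 1) * 33 ≤ 31 + (2 ^ r i - 1) * (Ni G).card := by
          omega
        have h4 : 1 ≤ 2 ^ r i := Nat.one_le_two_pow
        have h5 : (31 : ℝ) * (B i).card + (2 ^ r i - 1) * 33 ≤
            31 + (2 ^ r i - 1) * (Ni G).card := by
          have h6 : (((2 ^ r i - 1 : ℕ)) : ℝ) = 2 ^ r i - 1 := by
            rw [Nat.cast_sub h4]
            norm_num
          rw [← h6]
          exact_mod_cast h3
        linarith
      · push Not at hr
        have h1 : (B i).card ≤ (Ni G).card := card_le_card (filter_subset _ _)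
        have h2 : ((B i).card : ℝ) ≤ (Ni G).card := by exact_mod_cast h1
        have h3 : (64 : ℝ) ≤ 2 ^ r i := by
          calc (64 : ℝ) = 2 ^ 6 := by norm_num
            _ ≤ 2 ^ r i := pow_le_pow_right₀ (by norm_num) hr
        nlinarith
    · have h1 : B i = ∅ := by
        rw [eq_empty_iff_forall_notMem]
        intro x hx
        rw [hB] at hx
        obtain ⟨hx1, hx2⟩ := mem_filter.1 hx
        unfold Ni at hx1
        obtain ⟨y, hy⟩ := (mem_filter.1 hx1).2
        obtain ⟨p, _⟩ := near_walk G hG hx2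
        exact hi (Ord.nbr hy p.reverse)
      rw [h1, card_empty, Nat.cast_zero, mul_zero]
      nlinarith
  have hsum : ((Cv s d).card : ℝ) ≤ ∑ i, w i * (B i).card := by
    calc ((Cv s d).card : ℝ) = ∑ x ∈ Cv s d, (1 : ℝ) := by simp
      _ ≤ ∑ x ∈ Cv s d, ∑ i, (if Near s d (r i) (c i) x then w i else 0) :=
          sum_le_sum fun x hx => hcon x hx
      _ ≤ ∑ x ∈ Ni G, ∑ i, (if Near s d (r i) (c i) x then w i else 0) := by
          refine sum_le_sum_of_subset_of_nonneg (by rw [hNi]; exact Cv_sub) fun x _ _ => ?_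
          refine sum_nonneg fun i _ => ?_
          split_ifs
          · exact hw i
          · exact le_rfl
      _ = ∑ i, ∑ x ∈ Ni G, (if Near s d (r i) (c i) x then w i else 0) := sum_comm
      _ = ∑ i, w i * (B i).card := by
          refine sum_congr rfl fun i _ => ?_
          rw [← sum_filter, sum_const, nsmul_eq_mul, mul_comm]
  have hS : 31 * ((Cv s d).card : ℝ) ≤
      31 * ∑ i, w i + (∑ i, w i * (2 ^ r i - 1)) * ((Ni G).card - 33) := by
    calc 31 * ((Cv s d).card : ℝ) ≤ 31 * ∑ i, w i * (B i).card := by linarith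
      _ = ∑ i, w i * (31 * ((B i).card : ℝ)) := by
          rw [mul_sum]
          exact sum_congr rfl fun i _ => by ring
      _ ≤ ∑ i, w i * (31 + (2 ^ r i - 1) * ((Ni G).card - 33)) :=
          sum_le_sum fun i _ => mul_le_mul_of_nonneg_left (hball i) (hw i)
      _ = 31 * ∑ i, w i + (∑ i, w i * (2 ^ r i - 1)) * ((Ni G).card - 33) := by
          rw [mul_sum, sum_mul, ← sum_add_distrib]
          exact sum_congr rfl fun i _ => by ring
  have hS0 : 0 ≤ ∑ i, w i * (2 ^ r i - 1) := by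
    refine sum_nonneg fun i _ => mul_nonneg (hw i) ?_
    have hp1 : (1 : ℝ) ≤ 2 ^ r i := one_le_pow₀ (by norm_num)
    linarith
  rw [hNi] at hS
  have hcR : (126 : ℝ) ≤ (Cv s d).card := by exact_mod_cast hc126
  rcases le_total ((Bv s d).card : ℝ) 183 with h5 | h5
  · have h6 : (∑ i, w i * (2 ^ r i - 1)) * (((Bv s d).card : ℝ) - 33) ≤
        (∑ i, w i * (2 ^ r i - 1)) * 150 := mul_le_mul_of_nonneg_left (by linarith) hS0
    linarith
  · have h6 : (∑ i, w i * (2 ^ r i - 1)) * (((Bv s d).card : ℝ) - 183) ≤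
        (62 / 3) * (((Bv s d).card : ℝ) - 183) :=
      mul_le_mul_of_nonneg_right (by linarith) (by linarith)
    linarith

end

open Classical in
/-- **Flows modulo five.** -/
theorem flow_balls (hq : St_quot) (hc : St_contract) (ha : St_ahl)
    {V E : Type} [Fintype V] [DecidableEq V] [Fintype E] [DecidableEq E] (s d : E → V)
    (F : Finset E) (hbr : Br s d ∅ ∅) {ι : Type} [Fintype ι] (r : ι → ℕ) (w : ι → ℝ)
    (hw : ∀ i, 0 ≤ w i) (h62 : 3 * ∑ i, w i * (2 ^ r i - 1) ≤ 62)
    (h126 : ∑ i, w i + 5 * ∑ i, w i * (2 ^ r i - 1) < 126) (c : ι → V)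
    (h : ∀ X : Finset V, (crs s d X).card = 3 → Disjoint (crs s d X) F →
      1 ≤ ∑ i, (if ∃ x ∈ X, Near s d (r i) (c i) x then w i else 0)) : FlowOn s d ∅ F := by
  obtain ⟨W, _, _, ρ', hr, hrF, hl, -⟩ := hq V E s d F
  have h0 : FlowOn (ρ' ∘ s) (ρ' ∘ d) ∅ ∅ → FlowOn s d ∅ F := fun h => by
    have h1 := hl ∅ h
    rwa [union_empty] at h1
  apply h0
  by_contra hn
  have hbr' : Br (ρ' ∘ s) (ρ' ∘ d) ∅ ∅ := by
    intro Y _
    have h1 := hbr (univ.filter (fun v => ρ' v ∈ Y)) (disjoint_empty_right _)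
    rw [sdiff_empty] at h1 ⊢
    have h2 : crs (ρ' ∘ s) (ρ' ∘ d) Y = crs s d (univ.filter (fun v => ρ' v ∈ Y)) := by
      ext e
      rw [mem_crs', mem_crs', mem_filter, mem_filter]
      simp
    rw [h2]
    exact h1
  obtain ⟨s1, d1, ⟨ρ, rfl, rfl⟩, hM⟩ := exists_minC (ccR (ρ' ∘ s) (ρ' ∘ d)) (ρ' ∘ s) (ρ' ∘ d)
    ⟨id, rfl, rfl⟩ hbr' hn
  set P : V → W := ρ ∘ ρ' with hP
  have e1 : ρ ∘ ρ' ∘ s = P ∘ s := rfl
  have e2 : ρ ∘ ρ' ∘ d = P ∘ d := rfl
  rw [e1, e2] at hM
  by_cases hloop : ∀ e, (P ∘ s) e = (P ∘ d) e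
  · exact hM.nf (flow_of_loops hloop)
  push Not at hloop
  obtain ⟨e0, he0⟩ := hloop
  have hex : ∃ x y, Adj (P ∘ s) (P ∘ d) x y :=
    ⟨(P ∘ s) e0, (P ∘ d) e0, he0, e0, Or.inl ⟨rfl, rfl⟩⟩
  obtain ⟨x, hx, hlt⟩ := ballsH hc ha hM hex r w hw h62 h126 (fun i => P (c i))
  set X : Finset V := univ.filter (fun v => P v = x) with hX
  have hX_mem : ∀ v, v ∈ X ↔ P v = x := fun v => by simp [hX]
  have hcrs : crs s d X = univ.filter (fun e => (P ∘ s) e ≠ (P ∘ d) e ∧
      ((P ∘ s) e = x ∨ (P ∘ d) e = x)) := by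
    ext e
    rw [mem_crs', hX_mem, hX_mem, mem_filter]
    simp only [mem_univ, true_and, Function.comp]
    by_cases h1 : P (s e) = x <;> by_cases h2 : P (d e) = x
    · simp [h1, h2]
    · simp [h1, h2]
      intro h9
      exact h2 h9.symm
    · simp [h1, h2]
    · simp [h1, h2]
  have hcard : (crs s d X).card = 3 := by
    rw [hcrs]
    exact mem_Cv.1 hx
  have h1 := h X hcard (by
    rw [disjoint_left]
    intro e he heF
    rw [mem_crs', hX_mem, hX_mem] at he
    apply he
    have : P (s e) = P (d e) := by simp only [hP, Function.comp, hrF e heF]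
    rw [this])
  have h2 : ∑ i, (if ∃ x ∈ X, Near s d (r i) (c i) x then w i else 0) ≤
      ∑ i, (if Near (P ∘ s) (P ∘ d) (r i) (P (c i)) x then w i else 0) := by
    refine sum_le_sum fun i _ => ?_
    by_cases h3 : ∃ x ∈ X, Near s d (r i) (c i) x
    · obtain ⟨v, hv, hnv⟩ := id h3
      have h4 := near_map P hnv
      rw [(hX_mem v).1 hv] at h4
      rw [if_pos h3, if_pos h4]
    · rw [if_neg h3]
      split_ifs
      · exact hw i
      · exact le_rfl
  linarith

end Pool.Agent.N410.FV
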