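import Pool.Agent.N410.FV.Dense

/-!
# A minimal quotient without nowhere-zero flow modulo five has 126 vertices of degree three
-/

set_option autoImplicit false
set_option linter.unusedSectionVars false

namespace Pool.Agent.N410.FV

open Finset Pool.Agent.TH676.Z Pool.Agent.Y335.FL Pool.Agent.Y358.IN

variable {V E : Type} [Fintype V] [DecidableEq V] [Fintype E] [DecidableEq E]

/-- handshake -/
theorem sum_dg (s d : E → V) : ∑ y, dg s d y = 2 * (ein s d univ).card := by
  have h1 : ∀ y : V, dg s d y = ∑ e ∈ ein s d univ,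
      ((if s e = y then 1 else 0) + (if d e = y then 1 else 0)) := by
    intro y
    have h2 : univ.filter (fun e => s e ≠ d e ∧ (s e = y ∨ d e = y)) =
        (ein s d univ).filter (fun e => s e = y ∨ d e = y) := by
      ext e
      rw [mem_filter, mem_filter, mem_ein]
      simp
    unfold dg
    rw [h2, card_filter]
    refine sum_congr rfl fun e he => ?_
    have h3 := (mem_ein.1 he).2.2
    by_cases h4 : s e = y
    · have h5 : d e ≠ y := fun h => h3 (h4.trans h.symm)
      rw [if_pos (Or.inl h4), if_pos h4, if_neg h5]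
    · by_cases h5 : d e = y
      · rw [if_pos (Or.inr h5), if_neg h4, if_pos h5]
      · rw [if_neg (by tauto), if_neg h4, if_neg h5]
  simp only [h1]
  rw [sum_comm]
  have h2 : ∀ e : E, ∑ y : V, ((if s e = y then 1 else 0) + (if d e = y then 1 else 0)) = 2 := by
    intro e
    rw [sum_add_distrib, sum_ite_eq, sum_ite_eq]
    simp
  simp only [h2]
  rw [sum_const, smul_eq_mul, mul_comm]

theorem poly {x : ℝ} (h2 : 2 ≤ x) (h3 : x ≤ 7 / 3) :
    126 ≤ (3 - x) * (2 * ∑ i ∈ range 6, x ^ i) := by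
  rw [sum_range_succ, sum_range_succ, sum_range_succ, sum_range_succ, sum_range_succ,
    sum_range_succ, sum_range_zero]
  obtain ⟨y, hy, rfl⟩ : ∃ y, 0 ≤ y ∧ x = 2 + y := ⟨x - 2, by linarith, by ring⟩
  have hy3 : y ≤ 1 / 3 := by linarith
  have e2 : y ^ 2 ≤ y / 3 := by nlinarith
  have e3 : y ^ 3 ≤ y / 3 := by nlinarith [mul_nonneg hy hy]
  have e4 : y ^ 4 ≤ y / 3 := by
    have : y ^ 4 = y ^ 3 * y := by ring
    rw [this]
    nlinarith [pow_nonneg hy 3]
  have e5 : y ^ 5 ≤ y / 3 := by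
    have : y ^ 5 = y ^ 4 * y := by ring
    rw [this]
    nlinarith [pow_nonneg hy 4]
  have e6 : y ^ 6 ≤ y / 3 := by
    have : y ^ 6 = y ^ 5 * y := by ring
    rw [this]
    nlinarith [pow_nonneg hy 5]
  have key : (3 - (2 + y)) * (2 * (0 + (2 + y) ^ 0 + (2 + y) ^ 1 + (2 + y) ^ 2 + (2 + y) ^ 3 +
      (2 + y) ^ 4 + (2 + y) ^ 5)) =
      2 * (63 + 66 * y - 18 * y ^ 2 - 62 * y ^ 3 - 38 * y ^ 4 - 10 * y ^ 5 - y ^ 6) := by ring
  rw [key]
  linarith

/-- **126 vertices of degree three** -/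
theorem cubic126 (hc : St_contract) (ha : St_ahl) {src dst : E → V} (hM : MinC src dst)
    (hex : ∃ x y, Adj src dst x y) :
    126 ≤ (univ.filter (fun x => dg src dst x = 3)).card := by
  classical
  have h3 := threeC hc hM
  have hgi := girthC hc hM
  set B : Finset V := univ.filter (fun v => ∃ y, Adj src dst v y) with hB
  have hmB : ∀ v, v ∈ B ↔ ∃ y, Adj src dst v y := fun v => by simp [hB]
  let G : SimpleGraph B :=
    { Adj := fun a b => Adj src dst a b
      symm := ⟨fun a b h => GiAux.adj_symm h⟩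
      loopless := ⟨fun a h => h.1 rfl⟩ }
  have hGA : ∀ a b : B, G.Adj a b ↔ Adj src dst a b := fun a b => Iff.rfl
  obtain ⟨x0, y0, hxy0⟩ := hex
  haveI : Nonempty B := ⟨⟨x0, (hmB x0).2 ⟨y0, hxy0⟩⟩⟩
  have hdeg : ∀ a : B, dg src dst a ≤ G.degree a := by
    intro a
    refine (dg_le_nb hc hM a).trans ?_
    rw [← G.card_neighborFinset_eq_degree]
    have h5 : nb src dst a ⊆ (G.neighborFinset a).map (Function.Embedding.subtype _) := by
      intro w hw
      have hw' : Adj src dst a w := (mem_filter.1 hw).2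
      have hwB : w ∈ B := (hmB w).2 ⟨a, GiAux.adj_symm hw'⟩
      rw [mem_map]
      exact ⟨⟨w, hwB⟩, by rw [SimpleGraph.mem_neighborFinset, hGA]; exact hw', rfl⟩
    have h6 := card_le_card h5
    rwa [card_map] at h6
  have hdg3 : ∀ a : B, 3 ≤ dg src dst a := by
    intro a
    obtain ⟨y, hy⟩ := (hmB a).1 a.2
    exact Ord.three_dg h3 hy
  have hdeg3 : ∀ a : B, 3 ≤ G.degree a := fun a => (hdg3 a).trans (hdeg a)
  have hahl := ha B G (fun a => by have := hdeg3 a; omega) (by
    intro k hk v hv h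
    exact hgi k hk (fun i => (v i : V)) (fun i j hij => hv (Subtype.ext hij)) h)
  -- sparsity
  have hB2 : 2 ≤ B.card := by
    have h5 : ({x0, y0} : Finset V) ⊆ B := by
      intro z hz
      rw [mem_insert, mem_singleton] at hz
      rcases hz with rfl | rfl
      · exact (hmB _).2 ⟨y0, hxy0⟩
      · exact (hmB _).2 ⟨x0, GiAux.adj_symm hxy0⟩
    have h6 := card_le_card h5
    rwa [card_pair hxy0.1] at h6
  have hsp := sparse hM B hB2
  have heB : ein src dst B = ein src dst univ := by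
    ext e
    rw [mem_ein, mem_ein]
    constructor
    · rintro ⟨_, _, h⟩; exact ⟨mem_univ _, mem_univ _, h⟩
    · rintro ⟨_, _, h⟩
      exact ⟨(hmB _).2 ⟨dst e, h, e, Or.inl ⟨rfl, rfl⟩⟩,
        (hmB _).2 ⟨src e, h.symm, e, Or.inr ⟨rfl, rfl⟩⟩, h⟩
  have hsumN : ∑ a ∈ B, dg src dst a = 2 * (ein src dst B).card := by
    rw [heB, ← sum_dg]
    refine sum_subset (subset_univ _) fun y _ hy => ?_
    by_contra h0
    have h1 : 0 < (univ.filter (fun e => src e ≠ dst e ∧ (src e = y ∨ dst e = y))).card :=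
      Nat.pos_of_ne_zero h0
    obtain ⟨e, he⟩ := card_pos.1 h1
    obtain ⟨_, h4, h5⟩ := mem_filter.1 he
    apply hy
    rcases h5 with h5 | h5
    · exact (hmB _).2 ⟨dst e, h5 ▸ h4, e, Or.inl ⟨h5, rfl⟩⟩
    · exact (hmB _).2 ⟨src e, h5 ▸ h4.symm, e, Or.inr ⟨rfl, h5⟩⟩
  set n3 : ℕ := (B.filter (fun x => dg src dst x = 3)).card with hn3
  -- count
  have hcnt : 4 * B.card ≤ ∑ a ∈ B, dg src dst a + n3 := by
    have h5 : ∑ _a ∈ B, 4 ≤ ∑ a ∈ B, (dg src dst a + if dg src dst a = 3 then 1 else 0) := by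
      refine sum_le_sum fun a ha => ?_
      have h6 := hdg3 ⟨a, ha⟩
      change 3 ≤ dg src dst a at h6
      split_ifs with h7 <;> omega
    rw [sum_const, smul_eq_mul, sum_add_distrib, ← card_filter] at h5
    omega
  have hgoal : (126 : ℝ) ≤ n3 := by
    set N : ℝ := (B.card : ℝ) with hN
    have hNc : (Fintype.card B : ℝ) = N := by rw [Fintype.card_coe]
    set m : ℝ := (G.edgeFinset.card : ℝ) with hm
    set S : ℝ := ((∑ a ∈ B, dg src dst a : ℕ) : ℝ) with hS
    have hN0 : 0 < N := by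
      rw [hN]
      exact_mod_cast (by omega : 0 < B.card)
    rw [hNc] at hahl
    have hsum : ∑ a : B, (G.degree a : ℝ) = 2 * m := by
      rw [hm]
      exact_mod_cast G.sum_degrees_eq_twice_card_edges
    have hSm : S ≤ 2 * m := by
      rw [← hsum, hS, ← sum_coe_sort B (fun a => dg src dst a)]
      push_cast
      exact sum_le_sum fun a _ => by exact_mod_cast hdeg a
    have hS3 : 3 * N ≤ S := by
      have h5 : 3 * B.card ≤ ∑ a ∈ B, dg src dst a := by
        rw [mul_comm, ← smul_eq_mul, ← sum_const]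
        exact sum_le_sum fun a ha => hdg3 ⟨a, ha⟩
      rw [hN, hS]
      exact_mod_cast h5
    have hSup : 3 * S ≤ 10 * N := by
      have h5 : 3 * ∑ a ∈ B, dg src dst a ≤ 10 * B.card := by omega
      rw [hN, hS]
      exact_mod_cast h5
    have hcnt' : 4 * N ≤ S + n3 := by
      rw [hN, hS]
      exact_mod_cast hcnt
    set x : ℝ := S / N - 1 with hx
    have hx2 : 2 ≤ x := by
      rw [hx]
      have : 3 ≤ S / N := by rwa [le_div_iff₀ hN0]
      linarith
    have hx3 : x ≤ 7 / 3 := by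
      rw [hx]
      have : S / N ≤ 10 / 3 := by
        rw [div_le_iff₀ hN0]
        linarith
      linarith
    have hxx : x ≤ 2 * m / N - 1 := by
      rw [hx]
      have : S / N ≤ 2 * m / N := div_le_div_of_nonneg_right hSm hN0.le
      linarith
    have hmono : 2 * ∑ i ∈ range 6, x ^ i ≤ N := by
      refine le_trans ?_ hahl
      refine mul_le_mul_of_nonneg_left (sum_le_sum fun i _ => ?_) (by norm_num)
      exact pow_le_pow_left₀ (by linarith) hxx i
    have h8 := poly hx2 hx3
    have h9 : (3 - x) * (2 * ∑ i ∈ range 6, x ^ i) ≤ (3 - x) * N :=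
      mul_le_mul_of_nonneg_left hmono (by linarith)
    have h10 : (3 - x) * N = 4 * N - S := by
      rw [hx]
      field_simp
      ring
    linarith
  have hgoal' : 126 ≤ n3 := by exact_mod_cast hgoal
  exact hgoal'.trans (card_le_card (filter_subset_filter _ (subset_univ _)))

end Pool.Agent.N410.FV
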