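import Pool.Agent.N410.FV.Cubic
import Pool.Agent.Y358.IN.Ind2
import Pool.Agent.R129.Ball.Cls

/-!
# Order and number of vertices of degree three of a minimal quotient; independent vertices
-/

set_option autoImplicit false
set_option linter.unusedSectionVars false

namespace Pool.Agent.N410.FV

open Finset Pool.Agent.TH676.Z Pool.Agent.Y335.FL Pool.Agent.Y358.IN

variable {V E : Type} [Fintype V] [DecidableEq V] [Fintype E] [DecidableEq E]

/-- the vertices which are not isolated -/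
noncomputable def Bv (src dst : E → V) : Finset V := by
  classical
  exact univ.filter (fun v => ∃ y, Adj src dst v y)

theorem mem_Bv {src dst : E → V} {v : V} : v ∈ Bv src dst ↔ ∃ y, Adj src dst v y := by
  classical
  unfold Bv
  rw [mem_filter]
  exact ⟨fun h => h.2, fun h => ⟨mem_univ _, h⟩⟩

/-- the vertices of degree three -/
def Cv (src dst : E → V) : Finset V := univ.filter (fun x => dg src dst x = 3)

theorem mem_Cv {src dst : E → V} {v : V} : v ∈ Cv src dst ↔ dg src dst v = 3 := by simp [Cv]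

theorem Cv_sub {src dst : E → V} : Cv src dst ⊆ Bv src dst := by
  intro x hx
  rw [mem_Cv] at hx
  rw [mem_Bv]
  have h0 : 0 < (univ.filter (fun e => src e ≠ dst e ∧ (src e = x ∨ dst e = x))).card := by
    change 0 < dg src dst x
    omega
  obtain ⟨e, he⟩ := card_pos.1 h0
  obtain ⟨-, h4, h5⟩ := mem_filter.1 he
  rcases h5 with h5 | h5
  · exact ⟨dst e, h5 ▸ h4, e, Or.inl ⟨h5, rfl⟩⟩
  · exact ⟨src e, h5 ▸ h4.symm, e, Or.inr ⟨rfl, h5⟩⟩

/-- **Data of a minimal quotient** -/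
theorem data (hc : St_contract) (ha : St_ahl) {src dst : E → V} (hM : MinC src dst)
    (hex : ∃ x y, Adj src dst x y) :
    ∃ y : ℝ, 0 ≤ y ∧ y ≤ 1 / 3 ∧ 2 * ∑ i ∈ range 6, (2 + y) ^ i ≤ ((Bv src dst).card : ℝ) ∧
      (1 - y) * ((Bv src dst).card : ℝ) ≤ ((Cv src dst).card : ℝ) ∧
      2 * ((Bv src dst).card : ℝ) + 12 ≤ 3 * ((Cv src dst).card : ℝ) := by
  classical
  have h3 := threeC hc hM
  have hgi := girthC hc hM
  set B : Finset V := Bv src dst with hB
  have hmB : ∀ v, v ∈ B ↔ ∃ y, Adj src dst v y := fun v => mem_Bv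
  let G : SimpleGraph B :=
    { Adj := fun a b => Adj src dst a b
      symm := ⟨fun a b h => GiAux.adj_symm h⟩
      loopless := ⟨fun a h => h.1 rfl⟩ }
  have hGA : ∀ a b : B, G.Adj a b ↔ Adj src dst a b := fun a b => Iff.rfl
  obtain ⟨x0, y0, hxy0⟩ := hex
  haveI : Nonempty B := ⟨⟨x0, (hmB x0).2 ⟨y0, hxy0⟩⟩⟩
  have hdeg : ∀ a : B, dg src dst a ≤ G.degree a := by
    intro a
    refine (dg_le_nb hc hM a).trans ?_
    rw [← G.card_neighborFinset_eq_degree]
    have h5 : nb src dst a ⊆ (G.neighborFinset a).map (Function.Embedding.subtype _) := by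
      intro w hw
      have hw' : Adj src dst a w := (mem_filter.1 hw).2
      have hwB : w ∈ B := (hmB w).2 ⟨a, GiAux.adj_symm hw'⟩
      rw [mem_map]
      exact ⟨⟨w, hwB⟩, by rw [SimpleGraph.mem_neighborFinset, hGA]; exact hw', rfl⟩
    have h6 := card_le_card h5
    rwa [card_map] at h6
  have hdg3 : ∀ a : B, 3 ≤ dg src dst a := by
    intro a
    obtain ⟨y, hy⟩ := (hmB a).1 a.2
    exact Ord.three_dg h3 hy
  have hdeg3 : ∀ a : B, 3 ≤ G.degree a := fun a => (hdg3 a).trans (hdeg a)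
  have hahl := ha B G (fun a => by have := hdeg3 a; omega) (by
    intro k hk v hv h
    exact hgi k hk (fun i => (v i : V)) (fun i j hij => hv (Subtype.ext hij)) h)
  -- sparsity
  have hB2 : 2 ≤ B.card := by
    have h5 : ({x0, y0} : Finset V) ⊆ B := by
      intro z hz
      rw [mem_insert, mem_singleton] at hz
      rcases hz with rfl | rfl
      · exact (hmB _).2 ⟨y0, hxy0⟩
      · exact (hmB _).2 ⟨x0, GiAux.adj_symm hxy0⟩
    have h6 := card_le_card h5
    rwa [card_pair hxy0.1] at h6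
  have hsp := sparse hM B hB2
  have heB : ein src dst B = ein src dst univ := by
    ext e
    rw [mem_ein, mem_ein]
    constructor
    · rintro ⟨_, _, h⟩; exact ⟨mem_univ _, mem_univ _, h⟩
    · rintro ⟨_, _, h⟩
      exact ⟨(hmB _).2 ⟨dst e, h, e, Or.inl ⟨rfl, rfl⟩⟩,
        (hmB _).2 ⟨src e, h.symm, e, Or.inr ⟨rfl, rfl⟩⟩, h⟩
  have hsumN : ∑ a ∈ B, dg src dst a = 2 * (ein src dst B).card := by
    rw [heB, ← sum_dg]
    refine sum_subset (subset_univ _) fun y _ hy => ?_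
    by_contra h0
    have h1 : 0 < (univ.filter (fun e => src e ≠ dst e ∧ (src e = y ∨ dst e = y))).card :=
      Nat.pos_of_ne_zero h0
    obtain ⟨e, he⟩ := card_pos.1 h1
    obtain ⟨_, h4, h5⟩ := mem_filter.1 he
    apply hy
    rcases h5 with h5 | h5
    · exact (hmB _).2 ⟨dst e, h5 ▸ h4, e, Or.inl ⟨h5, rfl⟩⟩
    · exact (hmB _).2 ⟨src e, h5 ▸ h4.symm, e, Or.inr ⟨rfl, h5⟩⟩
  set n3 : ℕ := (B.filter (fun x => dg src dst x = 3)).card with hn3
  have hn3' : n3 ≤ (Cv src dst).card := card_le_card (filter_subset_filter _ (subset_univ _))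
  -- count
  have hcnt : 4 * B.card ≤ ∑ a ∈ B, dg src dst a + n3 := by
    have h5 : ∑ _a ∈ B, 4 ≤ ∑ a ∈ B, (dg src dst a + if dg src dst a = 3 then 1 else 0) := by
      refine sum_le_sum fun a ha => ?_
      have h6 := hdg3 ⟨a, ha⟩
      change 3 ≤ dg src dst a at h6
      split_ifs with h7 <;> omega
    rw [sum_const, smul_eq_mul, sum_add_distrib, ← card_filter] at h5
    omega
  set N : ℝ := (B.card : ℝ) with hN
  have hNc : (Fintype.card B : ℝ) = N := by rw [Fintype.card_coe]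
  set m : ℝ := (G.edgeFinset.card : ℝ) with hm
  set S : ℝ := ((∑ a ∈ B, dg src dst a : ℕ) : ℝ) with hS
  have hN0 : 0 < N := by
    rw [hN]
    exact_mod_cast (by omega : 0 < B.card)
  rw [hNc] at hahl
  have hsum : ∑ a : B, (G.degree a : ℝ) = 2 * m := by
    rw [hm]
    exact_mod_cast G.sum_degrees_eq_twice_card_edges
  have hSm : S ≤ 2 * m := by
    rw [← hsum, hS, ← sum_coe_sort B (fun a => dg src dst a)]
    push_cast
    exact sum_le_sum fun a _ => by exact_mod_cast hdeg a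
  have hS3 : 3 * N ≤ S := by
    have h5 : 3 * B.card ≤ ∑ a ∈ B, dg src dst a := by
      rw [mul_comm, ← smul_eq_mul, ← sum_const]
      exact sum_le_sum fun a ha => hdg3 ⟨a, ha⟩
    rw [hN, hS]
    exact_mod_cast h5
  have hSup : 3 * S + 12 ≤ 10 * N := by
    have h5 : 3 * ∑ a ∈ B, dg src dst a + 12 ≤ 10 * B.card := by omega
    rw [hN, hS]
    exact_mod_cast h5
  have hcnt' : 4 * N ≤ S + (Cv src dst).card := by
    have h5 : 4 * B.card ≤ ∑ a ∈ B, dg src dst a + (Cv src dst).card := by omega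
    rw [hN, hS]
    exact_mod_cast h5
  set x : ℝ := S / N - 1 with hx
  have hx2 : 2 ≤ x := by
    rw [hx]
    have : 3 ≤ S / N := by rwa [le_div_iff₀ hN0]
    linarith
  have hx3 : x ≤ 7 / 3 := by
    rw [hx]
    have : S / N ≤ 10 / 3 := by
      rw [div_le_iff₀ hN0]
      linarith
    linarith
  have hxx : x ≤ 2 * m / N - 1 := by
    rw [hx]
    have : S / N ≤ 2 * m / N := div_le_div_of_nonneg_right hSm hN0.le
    linarith
  have hmono : 2 * ∑ i ∈ range 6, x ^ i ≤ N := by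
    refine le_trans ?_ hahl
    refine mul_le_mul_of_nonneg_left (sum_le_sum fun i _ => ?_) (by norm_num)
    exact pow_le_pow_left₀ (by linarith) hxx i
  refine ⟨x - 2, by linarith, by linarith, ?_, ?_, ?_⟩
  · rw [show 2 + (x - 2) = x by ring]
    exact hmono
  · have h10 : (1 - (x - 2)) * N = 4 * N - S := by
      rw [hx]
      field_simp
      ring
    rw [h10]
    linarith
  · linarith

section tree

variable {G : SimpleGraph V}

/-- at least 63 vertices are joined to `x` by a path of odd length at most five -/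
theorem card_Po63 (h12 : ∀ (w : V) (c : G.Walk w w), c.IsCycle → 12 ≤ c.length)
    (h3 : ∀ x y, G.Adj x y → ∃ a b c, G.Adj x a ∧ G.Adj x b ∧ G.Adj x c ∧ a ≠ b ∧ a ≠ c ∧ b ≠ c)
    {x y : V} (hxy : G.Adj x y) : 63 ≤ (Po G x).card := by
  classical
  open Pool.Agent.R129.Ball in
  have h1 : 3 ≤ (Lv G 1 x).card := by
    obtain ⟨a, b, c, ha, hb, hc, hab, hac, hbc⟩ := h3 x y hxy
    have h5 : ({a, b, c} : Finset V) ⊆ Lv G 1 x := by
      intro z hz
      simp only [mem_insert, mem_singleton] at hz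
      refine mem_Lv.2 ?_
      rcases hz with rfl | rfl | rfl
      · exact ⟨_, Ord.edge_path ha, rfl⟩
      · exact ⟨_, Ord.edge_path hb, rfl⟩
      · exact ⟨_, Ord.edge_path hc, rfl⟩
    have h6 := card_le_card h5
    rwa [card_insert_of_notMem (by simp [hab, hac]), card_pair hbc] at h6
  have d1 : 2 * (Pool.Agent.R129.Ball.Lv G 1 x).card ≤ (Pool.Agent.R129.Ball.Lv G 2 x).card :=
    Pool.Agent.R129.Ball.Lv_double h12 h3 (j := 0) (by omega) x
  have d2 : 2 * (Pool.Agent.R129.Ball.Lv G 2 x).card ≤ (Pool.Agent.R129.Ball.Lv G 3 x).card :=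
    Pool.Agent.R129.Ball.Lv_double h12 h3 (j := 1) (by omega) x
  have d3 : 2 * (Pool.Agent.R129.Ball.Lv G 3 x).card ≤ (Pool.Agent.R129.Ball.Lv G 4 x).card :=
    Pool.Agent.R129.Ball.Lv_double h12 h3 (j := 2) (by omega) x
  have d4 : 2 * (Pool.Agent.R129.Ball.Lv G 4 x).card ≤ (Pool.Agent.R129.Ball.Lv G 5 x).card :=
    Pool.Agent.R129.Ball.Lv_double h12 h3 (j := 3) (by omega) x
  have hsub : Pool.Agent.R129.Ball.Lv G 1 x ∪ Pool.Agent.R129.Ball.Lv G 3 x ∪
      Pool.Agent.R129.Ball.Lv G 5 x ⊆ Po G x := by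
    intro v hv
    rw [mem_union, mem_union] at hv
    rcases hv with (hv | hv) | hv <;> obtain ⟨p, hp, hpl⟩ := Pool.Agent.R129.Ball.mem_Lv.1 hv <;>
      exact mem_Po.2 ⟨p, hp, by omega, by omega⟩
  have hcard := card_le_card hsub
  rw [card_union_of_disjoint, card_union_of_disjoint] at hcard
  · omega
  · exact Pool.Agent.R129.Ball.Lv_disj h12 (by norm_num) (by norm_num)
  · rw [disjoint_union_left]
    exact ⟨Pool.Agent.R129.Ball.Lv_disj h12 (by norm_num) (by norm_num),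
      Pool.Agent.R129.Ball.Lv_disj h12 (by norm_num) (by norm_num)⟩

theorem Po_symm {x y : V} (h : y ∈ Po G x) : x ∈ Po G y := by
  obtain ⟨p, hp, h1, h2⟩ := mem_Po.1 h
  exact mem_Po.2 ⟨p.reverse, hp.reverse, by rw [SimpleGraph.Walk.length_reverse]; exact h1,
    by rw [SimpleGraph.Walk.length_reverse]; exact h2⟩

theorem walk_closed {Y : Finset V} (hY : ∀ v ∈ Y, ∀ w, G.Adj v w → w ∈ Y) {x v : V}
    (p : G.Walk x v) (hx : x ∈ Y) : v ∈ Y := by
  induction p with
  | nil => exact hx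
  | cons h _ ih => exact ih (hY _ hx _ h)

end tree

theorem num1 {y : ℝ} (h0 : 0 ≤ y) (h1 : y ≤ 41 / 200) :
    75 < (2 * ∑ i ∈ range 6, (2 + y) ^ i) * (38 / 63 - y) := by
  have key : (2 * ∑ i ∈ range 6, (2 + y) ^ i) =
      2 * (63 + 129 * y + 111 * y ^ 2 + 49 * y ^ 3 + 11 * y ^ 4 + y ^ 5) := by
    rw [sum_range_succ, sum_range_succ, sum_range_succ, sum_range_succ, sum_range_succ,
      sum_range_succ, sum_range_zero]
    ring
  rw [key]
  have h2 : 0 ≤ 38 / 63 - y := by linarith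
  have h3 : 0 ≤ y ^ 3 := pow_nonneg h0 3
  have h4 : 0 ≤ y ^ 4 := pow_nonneg h0 4
  have h5 : 0 ≤ y ^ 5 := pow_nonneg h0 5
  have h6 : 2 * (63 + 129 * y + 111 * y ^ 2 + 49 * y ^ 3) * (38 / 63 - y) ≤
      2 * (63 + 129 * y + 111 * y ^ 2 + 49 * y ^ 3 + 11 * y ^ 4 + y ^ 5) * (38 / 63 - y) :=
    mul_le_mul_of_nonneg_right (by linarith) h2
  refine lt_of_lt_of_le ?_ h6
  have h7 : 0 ≤ 41 / 200 - y := by linarith
  nlinarith [mul_nonneg h0 h7, mul_nonneg (mul_nonneg h0 h0) h7, mul_nonneg h3 h7,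
    mul_nonneg (mul_nonneg h0 h7) h7, mul_nonneg (mul_nonneg (mul_nonneg h0 h0) h7) h7]

theorem num2 {y : ℝ} (h0 : 41 / 200 ≤ y) : 189 < 2 * ∑ i ∈ range 6, (2 + y) ^ i := by
  have h1 : 2 * ∑ i ∈ range 6, (2 + (41 / 200 : ℝ)) ^ i ≤ 2 * ∑ i ∈ range 6, (2 + y) ^ i := by
    refine mul_le_mul_of_nonneg_left (sum_le_sum fun i _ => ?_) (by norm_num)
    exact pow_le_pow_left₀ (by norm_num) (by linarith) i
  refine lt_of_lt_of_le ?_ h1
  rw [sum_range_succ, sum_range_succ, sum_range_succ, sum_range_succ, sum_range_succ,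
    sum_range_succ, sum_range_zero]
  norm_num

theorem num3 {y : ℝ} (h0 : 21 / 100 ≤ y) (h1 : y ≤ 1 / 3) :
    150 < (1 - y) * (2 * ∑ i ∈ range 6, (2 + y) ^ i) := by
  have key : (1 - y) * (2 * ∑ i ∈ range 6, (2 + y) ^ i) =
      2 * (63 + 66 * y - 18 * y ^ 2 - 62 * y ^ 3 - 38 * y ^ 4 - 10 * y ^ 5 - y ^ 6) := by
    rw [sum_range_succ, sum_range_succ, sum_range_succ, sum_range_succ, sum_range_succ,
      sum_range_succ, sum_range_zero]
    ring
  rw [key]
  obtain ⟨z, hz, rfl⟩ : ∃ z : ℝ, 0 ≤ z ∧ y = 21 / 100 + z := ⟨y - 21 / 100, by linarith, by ring⟩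
  have hz1 : z ≤ 37 / 300 := by linarith
  have e2 : z ^ 2 ≤ 37 / 300 * z := by nlinarith
  have e3 : z ^ 3 ≤ (37 / 300) * (37 / 300 * z) := by nlinarith [mul_nonneg hz hz]
  have e4 : z ^ 4 ≤ z / 500 := by
    have : z ^ 4 = z ^ 3 * z := by ring
    rw [this]
    nlinarith [pow_nonneg hz 3]
  have e5 : z ^ 5 ≤ z / 500 := by
    have : z ^ 5 = z ^ 4 * z := by ring
    rw [this]
    nlinarith [pow_nonneg hz 4]
  have e6 : z ^ 6 ≤ z / 500 := by
    have : z ^ 6 = z ^ 5 * z := by ring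
    rw [this]
    nlinarith [pow_nonneg hz 5]
  nlinarith

end Pool.Agent.N410.FV
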