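import Pool.Agent.N410.FV.Main

/-!
# Graphs with many neighbours at all vertices
-/

set_option autoImplicit false
set_option linter.unusedSectionVars false

namespace Pool.Agent.N410.FV

open Finset Pool.Agent.TH676.Z

variable {V E : Type} [Fintype V] [DecidableEq V] [Fintype E] [DecidableEq E]

/-- every vertex has at least `k` different neighbours -/
def Nbrs (s t : E → V) (k : ℕ) : Prop :=
  ∀ v : V, ∃ W : Finset V, k ≤ W.card ∧ ∀ w ∈ W, w ≠ v ∧ ∃ e, (s e = v ∧ t e = w) ∨ (s e = w ∧ t e = v)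

/-- a set with at most `k` elements has at least `k` boundary edges -/
theorem small_bdy {s t : E → V} {k : ℕ} (h : Nbrs s t k) (X : Finset V) (h1 : 1 ≤ X.card)
    (hk : X.card ≤ k) : k ≤ (crs s t X).card := by
  classical
  choose W hW hN using h
  set P : Finset (V × V) := X.sigma (fun v => W v \ X) |>.image (fun p => (p.1, p.2)) with hP
  have hinj : Function.Injective (fun p : (_ : V) × V => (p.1, p.2)) := by
    rintro ⟨a, b⟩ ⟨c, d⟩ h
    simp only [Prod.mk.injEq] at h
    obtain ⟨rfl, rfl⟩ := h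
    rfl
  have hPc : X.card * (k + 1 - X.card) ≤ P.card := by
    rw [hP, card_image_of_injective _ hinj, card_sigma, ← smul_eq_mul]
    refine card_nsmul_le_sum _ _ _ fun v hv => ?_
    have h2 : (W v ∩ X).card ≤ X.card - 1 := by
      rw [← card_erase_of_mem hv]
      refine card_le_card fun w hw => ?_
      rw [mem_inter] at hw
      exact mem_erase.2 ⟨(hN v w hw.1).1, hw.2⟩
    have h3 : (W v \ X).card + (W v ∩ X).card = (W v).card := card_sdiff_add_card_inter _ _
    have h4 := hW v
    omega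
  have hPcut : P.card ≤ (crs s t X).card := by
    have hex : ∀ p ∈ P, ∃ e, (s e = p.1 ∧ t e = p.2) ∨ (s e = p.2 ∧ t e = p.1) := by
      intro p hp
      obtain ⟨q, hq, rfl⟩ := mem_image.1 hp
      rw [mem_sigma, mem_sdiff] at hq
      exact (hN _ _ hq.2.1).2
    have hXP : ∀ p ∈ P, p.1 ∈ X ∧ p.2 ∉ X := by
      intro p hp
      obtain ⟨q, hq, rfl⟩ := mem_image.1 hp
      rw [mem_sigma, mem_sdiff] at hq
      exact ⟨hq.1, hq.2.2⟩
    rcases P.eq_empty_or_nonempty with h0 | ⟨p0, hp0⟩
    · rw [h0]; simp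
    have : Nonempty E := ⟨(hex p0 hp0).choose⟩
    choose! g hg using hex
    refine card_le_card_of_injOn g ?_ ?_
    · intro p hp
      have h2 := hXP p hp
      rw [mem_coe, mem_crs']
      rcases hg p hp with ⟨h3, h4⟩ | ⟨h3, h4⟩ <;> simp [h3, h4, h2.1, h2.2]
    · intro p hp q hq hpq
      have h2 := hXP p hp
      have h3 := hXP q hq
      have h4 := hg p hp
      have h5 := hg q hq
      rw [hpq] at h4
      rcases h4 with ⟨a1, a2⟩ | ⟨a1, a2⟩ <;> rcases h5 with ⟨b1, b2⟩ | ⟨b1, b2⟩
      · exact Prod.ext (a1.symm.trans b1) (a2.symm.trans b2)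
      · exact absurd (a1.symm.trans b1 ▸ h2.1) h3.2
      · exact absurd (b1.symm.trans a1 ▸ h3.1) h2.2
      · exact Prod.ext (a2.symm.trans b2) (a1.symm.trans b1)
  refine le_trans ?_ (hPc.trans hPcut)
  obtain ⟨a, ha⟩ : ∃ a, X.card = a + 1 := ⟨X.card - 1, by omega⟩
  obtain ⟨b, hb⟩ : ∃ b, k = X.card + b := ⟨k - X.card, by omega⟩
  have h5 : k + 1 - X.card = b + 1 := by omega
  rw [h5, ha]
  rw [ha] at hb
  rw [hb]
  nlinarith [Nat.zero_le (a * b)]

/-- dense graphs have no 126 disjoint sets with three boundary edges -/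
theorem no_packing {s t : E → V} {k : ℕ} (hk : 4 ≤ k) (h : Nbrs s t k)
    (hV : Fintype.card V < 126 * (k + 1)) (X : Fin 126 → Finset V)
    (hX : ∀ i j, i ≠ j → Disjoint (X i) (X j)) : ∃ i, (crs s t (X i)).card ≠ 3 := by
  classical
  by_contra hc
  push Not at hc
  have h1 : ∀ i, k + 1 ≤ (X i).card := by
    intro i
    by_contra h2
    have h3 : 1 ≤ (X i).card := by
      by_contra h4
      have h5 : X i = ∅ := card_eq_zero.1 (by omega)
      have h6 := hc i
      rw [h5] at h6
      simp [crs] at h6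
    have h7 := small_bdy h (X i) h3 (by omega)
    rw [hc i] at h7
    omega
  have h2 : 126 * (k + 1) ≤ (univ.biUnion X).card := by
    rw [card_biUnion (fun i _ j _ hij => hX i j hij)]
    have h3 : ∑ _i : Fin 126, (k + 1) ≤ ∑ i, (X i).card := sum_le_sum fun i _ => h1 i
    rw [sum_const, card_univ, Fintype.card_fin, smul_eq_mul] at h3
    exact h3
  have h3 : (univ.biUnion X).card ≤ Fintype.card V := card_le_univ _
  omega

end Pool.Agent.N410.FV
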