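import Pool.Agent.Y358.IN.Dirac
import Pool.Agent.H170.Reg.Good

/-!
# Dense sets in a minimal quotient without nowhere-zero flow modulo five

In a quotient without nowhere-zero flow whose proper quotients have flows a set of `k ≥ 2` vertices
spans at most `(5 k - 6) / 3` edges: graphs of strength at least `5/3` can be contracted (covering
theorem of the starting library).
-/

set_option autoImplicit false
set_option linter.unusedSectionVars false

namespace Pool.Agent.N410.FV

open Finset Pool.Agent.TH676.Z Pool.Agent.Y335.FL Pool.Agent.Y358.IN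

variable {V E : Type} [Fintype V] [DecidableEq V] [Fintype E] [DecidableEq E]

/-- the proper edges inside `X` -/
def ein (s d : E → V) (X : Finset V) : Finset E :=
  univ.filter (fun e => s e ∈ X ∧ d e ∈ X ∧ s e ≠ d e)

theorem mem_ein {s d : E → V} {X : Finset V} {e : E} :
    e ∈ ein s d X ↔ s e ∈ X ∧ d e ∈ X ∧ s e ≠ d e := by simp [ein]

theorem ein_single (s d : E → V) (X : Finset V) (h : X.card = 1) : ein s d X = ∅ := by
  obtain ⟨x, rfl⟩ := card_eq_one.1 h
  ext e
  rw [mem_ein, mem_singleton, mem_singleton]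
  simp only [notMem_empty, iff_false]
  rintro ⟨h1, h2, h3⟩
  exact h3 (h1.trans h2.symm)

/-- a set such that all its partitions have many crossing edges can be contracted -/
theorem contract {s d : E → V} (hM : MinC s d) (X : Finset V) (hX : 2 ≤ X.card)
    (hp : ∀ (c : ℕ) (p : V → Fin c), (∀ i, ∃ v ∈ X, p v = i) →
      5 * c ≤ 3 * ((ein s d X).filter (fun e => p (s e) ≠ p (d e))).card + 5) : False := by
  classical
  set C := ein s d X with hC
  let E' := {e : E // e ∈ C}
  let V' := {v : V // v ∈ X}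
  let s' : E' → V' := fun e => ⟨s e.1, (mem_ein.1 e.2).1⟩
  let d' : E' → V' := fun e => ⟨d e.1, (mem_ein.1 e.2).2.1⟩
  obtain ⟨x0, hx0⟩ : X.Nonempty := card_pos.1 (by omega)
  have hpart : ∀ (c : ℕ) (π : V' → Fin c), Function.Surjective π →
      (∀ e ∈ (∅ : Finset E'), π (s' e) = π (d' e)) →
      5 * c ≤ (5 - 2) * (univ.filter (fun e => π (s' e) ≠ π (d' e))).card + 5 := by
    intro c π hπ _
    have h1 := hp c (fun v => if h : v ∈ X then π ⟨v, h⟩ else π ⟨x0, hx0⟩) (fun i => by
      obtain ⟨v, hv⟩ := hπ i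
      exact ⟨v.1, v.2, by rw [dif_pos v.2]; exact hv⟩)
    refine h1.trans ?_
    apply Nat.add_le_add_right
    apply Nat.mul_le_mul_left
    refine card_le_card_of_surjOn (fun e : E' => e.1) ?_
    intro e he
    rw [mem_coe, mem_filter] at he
    obtain ⟨he1, he2⟩ := he
    have h2 := mem_ein.1 he1
    refine ⟨⟨e, he1⟩, ?_, rfl⟩
    rw [mem_coe, mem_filter]
    refine ⟨mem_univ _, ?_⟩
    rw [dif_pos h2.1, dif_pos h2.2.1] at he2
    exact he2
  have hG := Pool.Agent.H170.Reg.good_strength 5 (by norm_num) s' d' ∅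
    (Pool.Agent.H170.Reg.good_empty 5 s' d') (by
      intro c π hπ h0
      have := hpart c π hπ h0
      convert this)
  -- a proper edge inside `X`
  have hex : ∃ e ∈ C, s e ≠ d e := by
    have h1 := hpart X.card (X.equivFin) X.equivFin.surjective (fun e he => absurd he (notMem_empty e))
    have h2 : 0 < (univ.filter (fun e => X.equivFin (s' e) ≠ X.equivFin (d' e))).card := by omega
    obtain ⟨e, _⟩ := card_pos.1 h2
    exact ⟨e.1, e.2, (mem_ein.1 e.2).2.2⟩
  obtain ⟨f, hf0, _, hf2⟩ := hM.crit C hex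
  obtain ⟨h, hh1, hh2⟩ := hG 0 (fun e => f e.1)
  apply hM.nf
  refine ⟨fun e => if he : e ∈ C then h ⟨e, he⟩ else f e, fun v => ?_, fun e he => absurd he
    (notMem_empty e), fun e _ _ => ?_⟩
  · have h3 : bd s d (fun e => if he : e ∈ C then h ⟨e, he⟩ else f e) v - bd s d f v =
        ∑ e : E', (h e - f e.1) * ((if s e.1 = v then 1 else 0) - (if d e.1 = v then 1 else 0)) := by
      unfold bd
      rw [← sum_sub_distrib]
      have h4 : ∀ e : E, (((if s e = v then (if he : e ∈ C then h ⟨e, he⟩ else f e) else 0) -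
          (if d e = v then (if he : e ∈ C then h ⟨e, he⟩ else f e) else 0)) -
          ((if s e = v then f e else 0) - (if d e = v then f e else 0))) =
          (if he : e ∈ C then (h ⟨e, he⟩ - f e) *
            ((if s e = v then 1 else 0) - (if d e = v then 1 else 0)) else 0) := by
        intro e
        by_cases he : e ∈ C
        · simp only [dif_pos he]
          by_cases h5 : s e = v <;> by_cases h6 : d e = v <;> simp [h5, h6] <;> ring
        · simp only [dif_neg he, sub_self]
      rw [sum_congr rfl (fun e _ => h4 e)]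
      rw [← sum_subset (subset_univ C) (fun e _ he => by rw [dif_neg he]), ← sum_coe_sort C]
      exact sum_congr rfl fun e _ => by rw [dif_pos e.2]
    rw [hf0 v, sub_zero] at h3
    rw [h3]
    by_cases hv : v ∈ X
    · have h4 := hh2 ⟨v, hv⟩
      refine Eq.trans ?_ h4
      refine sum_congr rfl fun e _ => ?_
      unfold Pool.Agent.H170.Reg.ic
      congr 2
      · by_cases h5 : s e.1 = v
        · rw [if_pos h5, if_pos (Subtype.ext h5)]
        · rw [if_neg h5, if_neg (fun h6 => h5 (congrArg Subtype.val h6))]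
      · by_cases h5 : d e.1 = v
        · rw [if_pos h5, if_pos (Subtype.ext h5)]
        · rw [if_neg h5, if_neg (fun h6 => h5 (congrArg Subtype.val h6))]
    · refine sum_eq_zero fun e _ => ?_
      have h5 := mem_ein.1 e.2
      rw [if_neg (fun h6 : s e.1 = v => hv (h6 ▸ h5.1)),
        if_neg (fun h6 : d e.1 = v => hv (h6 ▸ h5.2.1))]
      simp
  · by_cases he : e ∈ C
    · simp only [dif_pos he]
      exact hh1 ⟨e, he⟩ (mem_univ _)
    · simp only [dif_neg he]
      exact hf2 e (notMem_empty _) he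

/-- **Sparsity of the minimal quotients.** -/
theorem sparse {s d : E → V} (hM : MinC s d) (X : Finset V) (hX : 2 ≤ X.card) :
    3 * (ein s d X).card + 6 ≤ 5 * X.card := by
  classical
  by_contra hcon
  -- a smallest dense set
  have hex : ∃ n, ∃ X : Finset V, 2 ≤ X.card ∧ 5 * X.card < 3 * (ein s d X).card + 6 ∧ X.card = n :=
    ⟨_, X, hX, by omega, rfl⟩
  obtain ⟨Y, hY2, hYd, hYc⟩ := Nat.find_spec hex
  have hmin : ∀ A : Finset V, A.card < Y.card → 1 ≤ A.card → 3 * (ein s d A).card + 5 ≤ 5 * A.card := by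
    intro A hA h1
    rcases Nat.lt_or_ge A.card 2 with h2 | h2
    · have h3 : A.card = 1 := by omega
      rw [ein_single s d A h3, h3]
      simp
    · by_contra h3
      rw [hYc] at hA
      exact Nat.find_min hex hA ⟨A, h2, by omega, rfl⟩
  refine contract hM Y hY2 fun c p hp => ?_
  rcases Nat.lt_or_ge c 2 with hc | hc
  · omega
  -- the classes
  set A : Fin c → Finset V := fun i => Y.filter (fun v => p v = i) with hA
  have hA1 : ∀ i, 1 ≤ (A i).card := fun i => by
    obtain ⟨v, hv, hvi⟩ := hp i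
    exact card_pos.2 ⟨v, mem_filter.2 ⟨hv, hvi⟩⟩
  have hAsum : ∑ i, (A i).card = Y.card := by
    rw [card_eq_sum_card_fiberwise (f := p) (t := univ) (fun x _ => mem_univ _)]
  have hAlt : ∀ i, (A i).card < Y.card := by
    intro i
    obtain ⟨j, hj⟩ : ∃ j : Fin c, j ≠ i := by
      by_cases h0 : i = ⟨0, by omega⟩
      · exact ⟨⟨1, by omega⟩, by rw [h0]; intro h; simp at h⟩
      · exact ⟨⟨0, by omega⟩, fun h => h0 h.symm⟩
    have h1 := add_le_sum_two A i j hj.symm
    rw [hAsum] at h1
    have := hA1 j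
    omega
  have hEsum : ((ein s d Y).filter (fun e => ¬ p (s e) ≠ p (d e))).card = ∑ i, (ein s d (A i)).card := by
    rw [card_eq_sum_card_fiberwise (f := fun e => p (s e)) (t := univ) (fun x _ => mem_univ _)]
    refine sum_congr rfl fun i _ => congrArg card ?_
    ext e
    simp only [mem_filter, mem_ein, hA, not_not]
    constructor
    · rintro ⟨⟨⟨h1, h2, h3⟩, h4⟩, h5⟩
      exact ⟨⟨h1, h5⟩, ⟨h2, h4 ▸ h5⟩, h3⟩
    · rintro ⟨⟨h1, h5⟩, ⟨h2, h6⟩, h3⟩
      exact ⟨⟨⟨h1, h2, h3⟩, h5.trans h6.symm⟩, h5⟩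
  have hsplit := card_filter_add_card_filter_not (s := ein s d Y) (fun e => p (s e) ≠ p (d e))
  have hS : ∑ i : Fin c, (3 * (ein s d (A i)).card + 5) ≤ ∑ i : Fin c, 5 * (A i).card :=
    sum_le_sum fun i _ => hmin (A i) (hAlt i) (hA1 i)
  rw [sum_add_distrib, ← mul_sum, ← mul_sum, hAsum, ← hEsum, sum_const, card_univ, Fintype.card_fin,
    smul_eq_mul] at hS
  omega
where
  add_le_sum_two {c : ℕ} (A : Fin c → Finset V) (i j : Fin c) (h : i ≠ j) :
      (A i).card + (A j).card ≤ ∑ i, (A i).card := by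
    have h1 := sum_pair (f := fun i => (A i).card) h
    rw [← h1]
    exact sum_le_sum_of_subset (subset_univ _)

end Pool.Agent.N410.FV
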