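import Pool.Agent.N410.FV.Data
import Pool.Agent.N410.FV.Main

/-!
# Independent vertices of degree three in a minimal quotient
-/

set_option autoImplicit false
set_option linter.unusedSectionVars false

namespace Pool.Agent.N410.FV

open Finset Pool.Agent.TH676.Z Pool.Agent.Y335.FL Pool.Agent.Y358.IN

variable {V E : Type} [Fintype V] [DecidableEq V] [Fintype E] [DecidableEq E]

/-- **Independent vertices of degree three** -/
theorem indepH (hc : St_contract) (ha : St_ahl) {src dst : E → V} (hM : MinC src dst)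
    (hex : ∃ x y, Adj src dst x y) (a σ : ℕ) (h1 : 2 * a + σ ≤ 125) (h2 : 3 * a + σ ≤ 150)
    (J : Finset V) (hJ : J.card ≤ σ) :
    ∃ I ⊆ Cv src dst, Disjoint I J ∧ (∀ x ∈ I, ∀ y ∈ I, ¬ Adj src dst x y) ∧ a < I.card := by
  classical
  have h3 := threeC hc hM
  have hgi := girthC hc hM
  let G : SimpleGraph V :=
    { Adj := Adj src dst
      symm := ⟨fun a b h => GiAux.adj_symm h⟩
      loopless := ⟨fun a h => h.1 rfl⟩ }
  have hG : ∀ a b, G.Adj a b ↔ Adj src dst a b := fun a b => Iff.rfl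
  have h12 : ∀ (w : V) (c : G.Walk w w), c.IsCycle → 12 ≤ c.length :=
    fun w c hc => Ord.cycle_len hgi G hG c hc
  have h3' : ∀ x y, G.Adj x y → ∃ a b c, G.Adj x a ∧ G.Adj x b ∧ G.Adj x c ∧ a ≠ b ∧ a ≠ c ∧ b ≠ c :=
    fun x y h => h3 x y h
  set C' : Finset V := Cv src dst \ J with hC'
  have hC'c : (Cv src dst).card ≤ C'.card + J.card := card_le_card_sdiff_add_card
  by_contra hcon
  push Not at hcon
  -- independent subsets of `C'` are small
  have hsm : ∀ I ⊆ C', (∀ x ∈ I, ∀ y ∈ I, ¬ Adj src dst x y) → I.card ≤ a := by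
    intro I hI hind
    refine hcon I (fun x hx => (mem_sdiff.1 (hI hx)).1) ?_ hind
    rw [disjoint_left]
    intro x hx hxJ
    exact (mem_sdiff.1 (hI hx)).2 hxJ
  have hPo : ∀ v : V, (Po G v ∩ C').card ≤ a := by
    intro v
    refine hsm _ inter_subset_right ?_
    intro x hx y hy hadj
    exact Po_indep h12 v x (mem_inter.1 hx).1 y (mem_inter.1 hy).1 hadj
  -- the vertices of degree three have exactly three neighbours
  have hnb3 : ∀ x ∈ Cv src dst, (univ.filter (fun y => Adj src dst x y)).card ≤ 3 := by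
    intro x hx
    rw [mem_Cv] at hx
    have hsub : (univ.filter (fun y => Adj src dst x y)) ⊆
        (univ.filter (fun e => src e ≠ dst e ∧ (src e = x ∨ dst e = x))).image
          (fun e => if src e = x then dst e else src e) := by
      intro y hy
      obtain ⟨hne, e, he⟩ := (mem_filter.1 hy).2
      rw [mem_image]
      rcases he with ⟨h5, h6⟩ | ⟨h5, h6⟩
      · exact ⟨e, mem_filter.2 ⟨mem_univ _, by rw [h5, h6]; exact hne, Or.inl h5⟩, by
          rw [if_pos h5]; exact h6⟩
      · exact ⟨e, mem_filter.2 ⟨mem_univ _, by rw [h5, h6]; exact hne.symm, Or.inr h6⟩, by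
          rw [if_neg (fun h => hne (h.symm.trans h5))]; exact h5⟩
    refine (card_le_card hsub).trans (card_image_le.trans ?_)
    change dg src dst x ≤ 3
    omega
  -- a large independent subset of `C'`
  have hbig : C'.card ≤ 3 * a := by
    obtain ⟨I, hI, hind, hIc⟩ := indep_set (Adj src dst) (fun a b h => GiAux.adj_symm h)
      (fun a h => h.1 rfl) C'.card C' rfl (by
        intro Y hY hYn
        by_contra hno
        push Not at hno
        obtain ⟨y0, hy0⟩ := hYn
        have hcl : ∀ v ∈ Y, ∀ w, G.Adj v w → w ∈ Y := by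
          intro v hv w hw
          have h5 : Y.filter (Adj src dst v) ⊆ univ.filter (fun y => Adj src dst v y) :=
            filter_subset_filter _ (subset_univ _)
          have h6 := eq_of_subset_of_card_le h5 (by
            have h7 := hnb3 v (mem_sdiff.1 (hY hv)).1
            have h8 := hno v hv
            omega)
          have h9 : w ∈ univ.filter (fun y => Adj src dst v y) :=
            mem_filter.2 ⟨mem_univ _, hw⟩
          rw [← h6] at h9
          exact (mem_filter.1 h9).1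
        obtain ⟨z, hz⟩ : ∃ z, G.Adj y0 z := by
          have h8 := hno y0 hy0
          obtain ⟨z, hz⟩ := card_pos.1 (show 0 < (Y.filter (Adj src dst y0)).card by omega)
          exact ⟨z, (mem_filter.1 hz).2⟩
        have h63 := card_Po63 h12 h3' hz
        have hsub : Po G y0 ⊆ Po G y0 ∩ C' := by
          intro v hv
          obtain ⟨p, _, _, _⟩ := mem_Po.1 hv
          exact mem_inter.2 ⟨hv, hY (walk_closed hcl p hy0)⟩
        have h10 := card_le_card hsub
        have h11 := hPo y0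
        omega)
    have h5 := hsm I hI hind
    omega
  -- double counting
  have hdc : 63 * C'.card ≤ a * (Bv src dst).card := by
    have hB : ∀ w ∈ C', w ∈ Bv src dst := fun w hw => Cv_sub (mem_sdiff.1 hw).1
    calc 63 * C'.card = ∑ _w ∈ C', 63 := by rw [sum_const, smul_eq_mul, mul_comm]
      _ ≤ ∑ w ∈ C', (Po G w).card := by
          refine sum_le_sum fun w hw => ?_
          obtain ⟨z, hz⟩ := mem_Bv.1 (hB w hw)
          exact card_Po63 h12 h3' (show G.Adj w z from hz)
      _ ≤ ∑ w ∈ C', ((Bv src dst).filter (fun v => w ∈ Po G v)).card := by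
          refine sum_le_sum fun w hw => card_le_card ?_
          intro v hv
          obtain ⟨z, hz⟩ := mem_Bv.1 (hB w hw)
          refine mem_filter.2 ⟨?_, Po_symm hv⟩
          obtain ⟨p, _, _, _⟩ := mem_Po.1 hv
          exact mem_Bv.2 (Ord.nbr (show G.Adj w z from hz) p)
      _ = ∑ v ∈ Bv src dst, (C'.filter (fun w => w ∈ Po G v)).card := by
          simp only [card_filter]
          rw [sum_comm]
      _ ≤ ∑ _v ∈ Bv src dst, a := by
          refine sum_le_sum fun v _ => ?_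
          refine le_trans (card_le_card ?_) (hPo v)
          intro w hw
          exact mem_inter.2 ⟨(mem_filter.1 hw).2, (mem_filter.1 hw).1⟩
      _ = a * (Bv src dst).card := by rw [sum_const, smul_eq_mul, mul_comm]
  -- numbers
  obtain ⟨y, hy0, hy1, hg, hn, -⟩ := data hc ha hM hex
  set N : ℕ := (Bv src dst).card with hN
  set n : ℕ := (Cv src dst).card with hn'
  have hn150 : n ≤ 150 := by omega
  have hnR : ((1 : ℝ) - y) * N ≤ 150 := hn.trans (by exact_mod_cast hn150)
  have hN0 : (0 : ℝ) ≤ N := Nat.cast_nonneg _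
  by_cases hNN : N ≤ 189
  · -- interpolation
    have hNR : (N : ℝ) ≤ 189 := by exact_mod_cast hNN
    have hy2 : y ≤ 41 / 200 := by
      by_contra hcc
      push Not at hcc
      have := num2 hcc.le
      linarith
    have h75 := num1 hy0 hy2
    have h126 : (126 : ℝ) ≤ N := by
      refine le_trans ?_ hg
      have h5 : 2 * ∑ i ∈ range 6, (2 : ℝ) ^ i ≤ 2 * ∑ i ∈ range 6, (2 + y) ^ i := by
        refine mul_le_mul_of_nonneg_left (sum_le_sum fun i _ => ?_) (by norm_num)
        exact pow_le_pow_left₀ (by norm_num) (by linarith) i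
      refine le_trans ?_ h5
      simp only [sum_range_succ, sum_range_zero]
      norm_num
    have h76 : (2 * ∑ i ∈ range 6, (2 + y) ^ i) * (38 / 63 - y) ≤ N * (38 / 63 - y) :=
      mul_le_mul_of_nonneg_right hg (by linarith)
    -- `63 n ≤ a N + 63 σ`
    have h63 : (63 : ℝ) * n ≤ a * N + 63 * σ := by
      have h5 : 63 * n ≤ a * N + 63 * σ := by
        have : 63 * n ≤ 63 * C'.card + 63 * σ := by omega
        omega
      exact_mod_cast h5
    have haR : (2 : ℝ) * a + σ ≤ 125 := by exact_mod_cast h1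
    have haR' : (3 : ℝ) * a + σ ≤ 150 := by exact_mod_cast h2
    have e1 : (189 - (N : ℝ)) * (2 * a + σ) ≤ (189 - N) * 125 :=
      mul_le_mul_of_nonneg_left haR (by linarith)
    have e2 : ((N : ℝ) - 126) * (3 * a + σ) ≤ (N - 126) * 150 :=
      mul_le_mul_of_nonneg_left haR' (by linarith)
    -- sum: (63 σ + a N) ≤ 63·125 + 25 (N - 126)
    have e3 : (a : ℝ) * N + 63 * σ ≤ 63 * 125 + 25 * (N - 126) := by nlinarith
    nlinarith
  · have hNR : (190 : ℝ) ≤ N := by exact_mod_cast (by omega : 190 ≤ N)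
    have hy2 : 21 / 100 ≤ y := by
      by_contra hcc
      push Not at hcc
      nlinarith
    have h5 := num3 hy2 hy1
    have h6 : (1 - y) * (2 * ∑ i ∈ range 6, (2 + y) ^ i) ≤ (1 - y) * N :=
      mul_le_mul_of_nonneg_left hg (by linarith)
    linarith

/-- the exceptional members of a family -/
def Thin (s d : E → V) (F : Finset E) (a σ : ℕ) : Prop :=
  ∀ I : Finset (Finset V), (∀ X ∈ I, (crs s d X).card = 3 ∧ Disjoint (crs s d X) F) →
    (∀ X ∈ I, ∀ Y ∈ I, X ≠ Y → Disjoint X Y) →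
    ∃ J ⊆ I, J.card ≤ σ ∧ ∀ K ⊆ I \ J, K.card = a + 1 →
      ∃ X ∈ K, ∃ Y ∈ K, X ≠ Y ∧ ∃ e, s e ∈ X ∧ d e ∈ Y

/-- **Flows modulo five.** -/
theorem flow_thin (hq : St_quot) (hc : St_contract) (ha : St_ahl) (s d : E → V) (F : Finset E)
    (hbr : Br s d ∅ ∅) (a σ : ℕ) (h1 : 2 * a + σ ≤ 125) (h2 : 3 * a + σ ≤ 150)
    (h : Thin s d F a σ) : FlowOn s d ∅ F := by
  classical
  obtain ⟨W, _, _, r, hr, hrF, hl, -⟩ := hq V E s d F
  have h0 : FlowOn (r ∘ s) (r ∘ d) ∅ ∅ → FlowOn s d ∅ F := fun h => by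
    have h1 := hl ∅ h
    rwa [union_empty] at h1
  apply h0
  by_contra hn
  have hbr' : Br (r ∘ s) (r ∘ d) ∅ ∅ := by
    intro Y _
    have h1 := hbr (univ.filter (fun v => r v ∈ Y)) (disjoint_empty_right _)
    rw [sdiff_empty] at h1 ⊢
    have h2 : crs (r ∘ s) (r ∘ d) Y = crs s d (univ.filter (fun v => r v ∈ Y)) := by
      ext e
      rw [mem_crs', mem_crs', mem_filter, mem_filter]
      simp
    rw [h2]
    exact h1
  obtain ⟨s1, d1, ⟨ρ, rfl, rfl⟩, hM⟩ := exists_minC (ccR (r ∘ s) (r ∘ d)) (r ∘ s) (r ∘ d)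
    ⟨id, rfl, rfl⟩ hbr' hn
  set P : V → W := ρ ∘ r with hP
  have e1 : ρ ∘ r ∘ s = P ∘ s := rfl
  have e2 : ρ ∘ r ∘ d = P ∘ d := rfl
  rw [e1, e2] at hM
  by_cases hloop : ∀ e, (P ∘ s) e = (P ∘ d) e
  · exact hM.nf (flow_of_loops hloop)
  push Not at hloop
  obtain ⟨e0, he0⟩ := hloop
  have hex : ∃ x y, Adj (P ∘ s) (P ∘ d) x y :=
    ⟨(P ∘ s) e0, (P ∘ d) e0, he0, e0, Or.inl ⟨rfl, rfl⟩⟩
  -- the classes of the vertices of degree three
  set cl : W → Finset V := fun x => univ.filter (fun v => P v = x) with hcl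
  have hcl_mem : ∀ x v, v ∈ cl x ↔ P v = x := fun x v => by simp [hcl]
  have hcrs : ∀ x, crs s d (cl x) = univ.filter (fun e => (P ∘ s) e ≠ (P ∘ d) e ∧
      ((P ∘ s) e = x ∨ (P ∘ d) e = x)) := by
    intro x
    ext e
    rw [mem_crs', hcl_mem, hcl_mem, mem_filter]
    simp only [mem_univ, true_and, Function.comp]
    by_cases h1 : P (s e) = x <;> by_cases h2 : P (d e) = x
    · simp [h1, h2]
    · simp [h1, h2]
      intro h9
      exact h2 h9.symm
    · simp [h1, h2]
    · simp [h1, h2]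
  have hcard : ∀ x, (crs s d (cl x)).card = dg (P ∘ s) (P ∘ d) x := by
    intro x
    rw [hcrs]
    rfl
  have hne : ∀ x ∈ Cv (P ∘ s) (P ∘ d), (cl x).Nonempty := by
    intro x hx
    rw [mem_Cv] at hx
    have h3 : 0 < (univ.filter (fun e => (P ∘ s) e ≠ (P ∘ d) e ∧
      ((P ∘ s) e = x ∨ (P ∘ d) e = x))).card := by
      change 0 < dg (P ∘ s) (P ∘ d) x
      omega
    obtain ⟨e, he⟩ := card_pos.1 h3
    obtain ⟨-, -, h5⟩ := mem_filter.1 he
    rcases h5 with h5 | h5
    · exact ⟨s e, (hcl_mem _ _).2 h5⟩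
    · exact ⟨d e, (hcl_mem _ _).2 h5⟩
  have hinj : ∀ x ∈ Cv (P ∘ s) (P ∘ d), ∀ y, cl x = cl y → x = y := by
    intro x hx y hxy
    obtain ⟨v, hv⟩ := hne x hx
    have h3 := (hcl_mem _ _).1 hv
    rw [hxy] at hv
    exact h3.symm.trans ((hcl_mem _ _).1 hv)
  obtain ⟨J, hJ, hJc, hK⟩ := h ((Cv (P ∘ s) (P ∘ d)).image cl) (by
      intro X hX
      obtain ⟨x, hx, rfl⟩ := mem_image.1 hX
      refine ⟨by rw [hcard]; exact mem_Cv.1 hx, ?_⟩
      rw [disjoint_left]
      intro e he heF
      rw [mem_crs', hcl_mem, hcl_mem] at he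
      apply he
      have : P (s e) = P (d e) := by simp only [hP, Function.comp, hrF e heF]
      rw [this])
    (by
      intro X hX Y hY hne'
      obtain ⟨x, hx, rfl⟩ := mem_image.1 hX
      obtain ⟨y, hy, rfl⟩ := mem_image.1 hY
      rw [disjoint_left]
      intro v hv hv'
      apply hne'
      rw [← (hcl_mem _ _).1 hv, ← (hcl_mem _ _).1 hv'])
  obtain ⟨I, hI, hdis, hind, hIc⟩ := indepH hc ha hM hex a σ h1 h2
    ((Cv (P ∘ s) (P ∘ d)).filter (fun x => cl x ∈ J)) (by
      refine le_trans ?_ hJc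
      refine card_le_card_of_injOn cl (fun x hx => ?_) ?_
      · exact (mem_filter.1 (mem_coe.1 hx)).2
      · intro x hx y hy hxy
        exact hinj x (mem_filter.1 (mem_coe.1 hx)).1 y hxy)
  obtain ⟨I', hI', hI'c⟩ := exists_subset_card_eq (show a + 1 ≤ I.card by omega)
  obtain ⟨X, hX, Y, hY, hXY, e, he1, he2⟩ := hK (I'.image cl) (by
      intro X hX
      obtain ⟨x, hx, rfl⟩ := mem_image.1 hX
      have hxC := hI (hI' hx)
      refine mem_sdiff.2 ⟨mem_image_of_mem _ hxC, fun hxJ => ?_⟩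
      exact disjoint_left.1 hdis (hI' hx) (mem_filter.2 ⟨hxC, hxJ⟩))
    (by
      rw [card_image_of_injOn, hI'c]
      intro x hx y hy hxy
      exact hinj x (hI (hI' (mem_coe.1 hx))) y hxy)
  obtain ⟨x, hx, rfl⟩ := mem_image.1 hX
  obtain ⟨y, hy, rfl⟩ := mem_image.1 hY
  rw [hcl_mem] at he1 he2
  have hxy : x ≠ y := fun h => hXY (by rw [h])
  exact hind x (hI' hx) y (hI' hy) ⟨hxy, e, Or.inl ⟨he1, he2⟩⟩

end Pool.Agent.N410.FV
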